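import Pool.Agent.H677_Perf.Rel5

set_option autoImplicit false

universe u v

namespace Pool.Agent.Results.MP_79a731_al.GoodExtensions

/-- Every finitely generated projective module `P` over the group ring `RG` (`R` a ring, `G` a
group) with `I P = P` (`I` the augmentation ideal) is zero. -/
def NoPerfectProjective (R : Type v) [Ring R] (G : Type u) [Group G] : Prop :=
  ∀ (P : Type (max u v)) [AddCommGroup P] [Module (MonoidAlgebra R G) P],
    Module.Finite (MonoidAlgebra R G) P → Module.Projective (MonoidAlgebra R G) P →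
    Submodule.span (MonoidAlgebra R G)
      {x : P | ∃ r : MonoidAlgebra R G,
        r ∈ (Ideal.span (Set.range (fun g : G =>
              (MonoidAlgebra.single g (1 : R) - 1 : MonoidAlgebra R G))) :
              Ideal (MonoidAlgebra R G)) ∧
        ∃ m : P, x = r • m} = ⊤ →
    Subsingleton P

/-- An element `y ≠ 1` is exceptional for a set `E` if it is a product of commutators of elements
commuting with `y`, and if it is conjugate to an element of some `F ⊆ E` such that, for every
`m ≥ 1`, the conjugacy classes of the `m`-th powers of the elements of `F` are exactly the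
conjugacy classes of the elements of `F`. -/
def Exceptional {H : Type u} [Group H] (E : Set H) (y : H) : Prop :=
  y ≠ 1 ∧ y ∈ ⁅Subgroup.centralizer {y}, Subgroup.centralizer {y}⁆ ∧
  ∃ F : Set H, F ⊆ E ∧ (∃ z ∈ F, IsConj y z) ∧ ∀ m : ℕ, 1 ≤ m →
    (∀ z ∈ F, ∃ w ∈ F, IsConj (z ^ m) w) ∧ (∀ w ∈ F, ∃ z ∈ F, IsConj (z ^ m) w)

/-- The intersection of the powers of the ideal of all `x ∈ ℤH` with the following property: for
every normal subgroup `L ≥ N` of `H`, commutative ring `k` and group `Y` such that the group ring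
of `Y` over the ring `k[H ⧸ L]` has no nonzero finitely generated perfect projective module, for
every homomorphism `ρ` from `H` to the group of invertible `d × d` matrices over the group ring
`kY`, and for every coset `C` of `L`, the part `y` of `x` in `C` goes to zero under (the linear
extension of) `ρ`. -/
noncomputable def KilledIdeal {H : Type u} [Group H] (N : Subgroup H) :
    Submodule ℤ (MonoidAlgebra ℤ H) :=
  ⨅ m : ℕ, (Submodule.span ℤ {x : MonoidAlgebra ℤ H |
    ∀ (L : Subgroup H) (_ : L.Normal), N ≤ L →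
      ∀ (k : Type u) (_ : CommRing k) (Y : Type u) (_ : Group Y),
      NoPerfectProjective (MonoidAlgebra k (H ⧸ L)) Y →
      ∀ (d : ℕ) (ρ : H →* Matrix (Fin d) (Fin d) (MonoidAlgebra k Y)) (C : H ⧸ L)
      (y : MonoidAlgebra ℤ H),
      (∀ g : H, ((g : H ⧸ L) = C → y.coeff g = x.coeff g) ∧
        ((g : H ⧸ L) ≠ C → y.coeff g = 0)) →
      MonoidAlgebra.lift ℤ (Matrix (Fin d) (Fin d) (MonoidAlgebra k Y)) H ρ y = 0}) ^ (m + 1)

/-- For some `k ≥ 0` the restriction to `J` of the `(2k+1)`-linear function `h(x₀ x₁ ⋯ x_{2k})` is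
the cyclic coboundary of a `2k`-linear function `u` whose restriction to `J` changes sign under
cyclic rotation of the variables. -/
def CyclicallyTrivial {H : Type u} [Group H] (J : Set (MonoidAlgebra ℤ H))
    (h : MonoidAlgebra ℤ H → ℝ) : Prop :=
  ∃ (k : ℕ) (u : MultilinearMap ℤ (fun _ : Fin (2 * k) => MonoidAlgebra ℤ H) ℝ),
    (∀ x : Fin (2 * k) → MonoidAlgebra ℤ H, (∀ i, x i ∈ J) →
      u (x ∘ finRotate (2 * k)) = - u x) ∧
    ∀ x : Fin (2 * k + 1) → MonoidAlgebra ℤ H, (∀ i, x i ∈ J) →
      (∑ j : Fin (2 * k), (-1 : ℝ) ^ (j : ℕ) * u (Fin.contractNth j.castSucc (· * ·) x)) +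
        u (fun i => if (i : ℕ) = 0 then x (Fin.last _) * x 0 else x i.castSucc) =
      h (List.ofFn x).prod

/-- The real vector space spanned by the real class functions `h` on `H` which are of one of two
kinds: `h(x) = c(x) - c(x ^ m)` for a class function `c` and some `m ≥ 1`; or the linear extension
of `h` to `ℤH` is cyclically trivial on `KilledIdeal N`. -/
noncomputable def NullFunctions {H : Type u} [Group H] (N : Subgroup H) : Submodule ℝ (H → ℝ) :=
  Submodule.span ℝ {h : H → ℝ | (∀ a b, h (a * b) = h (b * a)) ∧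
    ((∃ (m : ℕ) (c : H → ℝ), 1 ≤ m ∧ (∀ a b, c (a * b) = c (b * a)) ∧
        ∀ g, h g = c g - c (g ^ m)) ∨
      CyclicallyTrivial (KilledIdeal N : Set (MonoidAlgebra ℤ H))
        fun x => x.coeff.sum fun g a => a * h g)}

/-- Let `G` be a group such that for every finite subset `S` there are a group `H`, a normal
subgroup `K` of `H` and a map `φ : G → H`, injective on `S` and multiplicative on pairs from `S`,
such that `ℤ[H/K]` has no nonzero finitely generated perfect projective module and such that every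
normal subgroup `N ≠ 1` of `H` contained in `K` which is the normal closure of the set `T` of the
elements `(φ a)⁻¹ * φ b` of `N` (`a, b ∈ S`) satisfies one of the following:
(1) for some prime `p`, every finitely generated subgroup `U` with `T ⊆ U ≤ N` has a nontrivial
homomorphism to the group of order `p`;
(2) there are a normal subgroup `B < N` of `H` and a homomorphism `ρ` from `H` to the group of
invertible `d × d` matrices over a real group ring `ℝY` such that every `x ∈ KilledIdeal N` with
support in `φ(S)` and `ρ(x) = 0` has image zero in `ℤ[H/B]`, and a null function `h` with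
`h(y) = (coefficient of the trace of ρ(y) at the identity of Y)` for `y = 1` and for all `y ∈ H`
which are exceptional for `φ(S)`.
Then `ℤG` has no nonzero finitely generated perfect projective module. -/
theorem result (G : Type v) [Group G]
    (hG : ∀ S : Finset G, ∃ (H : Type u) (_ : Group H) (K : Subgroup H) (_ : K.Normal)
      (φ : G → H),
      Set.InjOn φ S ∧ (∀ a ∈ S, ∀ b ∈ S, φ (a * b) = φ a * φ b) ∧
      NoPerfectProjective ℤ (H ⧸ K) ∧
      ∀ (N : Subgroup H) (T : Set H), N.Normal → N ≤ K → N ≠ ⊥ →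
        T = {y | y ∈ N ∧ ∃ a ∈ S, ∃ b ∈ S, y = (φ a)⁻¹ * φ b} →
        Subgroup.normalClosure T = N →
        (∃ p : ℕ, p.Prime ∧ ∀ U : Subgroup H, U ≤ N → U.FG → T ⊆ U →
          ∃ f : U →* Multiplicative (ZMod p), f ≠ 1) ∨
        (∃ (B : Subgroup H) (_ : B.Normal) (Y : Type u) (_ : Group Y) (d : ℕ)
          (ρ : H →* Matrix (Fin d) (Fin d) (MonoidAlgebra ℝ Y)),
          B < N ∧
          (∀ x ∈ KilledIdeal N, (∀ g ∈ x.coeff.support, g ∈ φ '' S) →
            MonoidAlgebra.lift ℤ (Matrix (Fin d) (Fin d) (MonoidAlgebra ℝ Y)) H ρ x = 0 →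
            x.coeff.mapDomain (QuotientGroup.mk : H → H ⧸ B) = 0) ∧
          ∃ h ∈ NullFunctions N, ∀ y, (y = 1 ∨ Exceptional (φ '' S) y) →
            h y = ((ρ y).trace).coeff 1)) :
    NoPerfectProjective ℤ G := by
  refine Pool.Agent.H677_Perf.npp_main9 (G := G) ?_
  intro S
  obtain ⟨H, hH, K, hK, φ, h1, h2, h3, h4⟩ := hG S
  refine ⟨H, hH, K, hK, φ, h1, h2, h3, ?_⟩
  intro N hNn hNK hNb hT
  have hset : {y | y ∈ N ∧ ∃ a ∈ φ '' S, ∃ b ∈ φ '' S, y = a⁻¹ * b} =
      {y | y ∈ N ∧ ∃ a ∈ S, ∃ b ∈ S, y = (φ a)⁻¹ * φ b} := by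
    ext y
    constructor
    · rintro ⟨hy, _, ⟨a, ha, rfl⟩, _, ⟨b, hb, rfl⟩, h⟩
      exact ⟨hy, a, ha, b, hb, h⟩
    · rintro ⟨hy, a, ha, b, hb, h⟩
      exact ⟨hy, _, ⟨a, ha, rfl⟩, _, ⟨b, hb, rfl⟩, h⟩
  exact h4 N _ hNn hNK hNb hset hT

end Pool.Agent.Results.MP_79a731_al.GoodExtensions
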