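import Pool.Agent.H677_Perf.Rel7

set_option autoImplicit false

universe u v v' w h r

namespace Pool.Agent.Results.MP_79a731_al.LinearOverGroupRings

/-- Every finitely generated projective module `P` over the group ring `RG` (`R` a ring, `G` a
group) with `I P = P` (`I` the augmentation ideal) is zero. -/
def NoPerfectProjective (R : Type v) [Ring R] (G : Type u) [Group G] : Prop :=
  ∀ (P : Type (max u v)) [AddCommGroup P] [Module (MonoidAlgebra R G) P],
    Module.Finite (MonoidAlgebra R G) P → Module.Projective (MonoidAlgebra R G) P →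
    Submodule.span (MonoidAlgebra R G)
      {x : P | ∃ r : MonoidAlgebra R G,
        r ∈ (Ideal.span (Set.range (fun g : G =>
              (MonoidAlgebra.single g (1 : R) - 1 : MonoidAlgebra R G))) :
              Ideal (MonoidAlgebra R G)) ∧
        ∃ m : P, x = r • m} = ⊤ →
    Subsingleton P

/-- The element `y` either has infinite order in the abelianisation of its centraliser, or there
is a prime `p`, not invertible in `k`, such that `y` is not conjugate to `y ^ (p ^ n)` for any
`n ≥ 1`. -/
def NonExceptional (k : Type v) [CommRing k] {Y : Type w} [Group Y] (y : Y) : Prop :=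
  (∀ n : ℕ, 1 ≤ n → y ^ n ∉ ⁅Subgroup.centralizer {y}, Subgroup.centralizer {y}⁆) ∨
    ∃ p : ℕ, p.Prime ∧ ¬ IsUnit (p : k) ∧ ∀ n : ℕ, 1 ≤ n → ¬ IsConj y (y ^ (p ^ n))

/-- The normal subgroup `U` of `V` is tame (over `k`): either `k` has characteristic zero and
every element `x ≠ 1` of `U` is non-exceptional in `V`, or, for some prime `p` not invertible in
`k`, every finitely generated subgroup `≠ 1` of `U` has a nontrivial homomorphism to the group of
order `p`. -/
def Tame (k : Type v) [CommRing k] {V : Type w} [Group V] (U : Subgroup V) : Prop :=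
  (CharZero k ∧ ∀ x ∈ U, x ≠ 1 → NonExceptional k x) ∨
    ∃ p : ℕ, p.Prime ∧ ¬ IsUnit (p : k) ∧ ∀ T : Subgroup V, T ≤ U → T.FG → T ≠ ⊥ →
      ∃ χ : T →* Multiplicative (ZMod p), χ ≠ 1

/-- Every normal subgroup `M ≠ 1` of `Y` contained in `X` has a proper subgroup `M'`, normal in
`Y`, such that `M/M'` is tame in `Y/M'`. -/
def TameSeries (k : Type v) [CommRing k] {Y : Type w} [Group Y] (X : Subgroup Y) : Prop :=
  ∀ M : Subgroup Y, M.Normal → M ≤ X → M ≠ ⊥ →
    ∃ (M' : Subgroup Y) (_ : M'.Normal), M' < M ∧ Tame k (M.map (QuotientGroup.mk' M'))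

/-- For every nonzero element `a` of the group ring `kW` there is a ring homomorphism `ω` from
`kW` to a ring `F` with `ω(a) ≠ 0` such that the group ring over `F` of each power `V ^ j` has no
nonzero finitely generated perfect projective module. -/
def ResiduallyGood (k : Type v) [CommRing k] (W : Type h) [Group W] (V : Type w) [Group V] :
    Prop :=
  ∀ a : MonoidAlgebra k W, a ≠ 0 → ∃ (F : Type v') (_ : Ring F) (ω : MonoidAlgebra k W →+* F),
    ω a ≠ 0 ∧ ∀ j : ℕ, NoPerfectProjective F (Fin j → V)

/-- Let `W` be a group, let `ρ` be a homomorphism from a group `H` to the group of invertible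
`d × d` matrices over a group ring `kY`, let `L` be a normal subgroup of `H`, let `k₀` be a
subring of `k`, and let `Y₀` be a subgroup of `Y`. The condition is: `Y₀` has a normal subgroup `X`
satisfying (1), and (2) or (3):
(1) every normal subgroup `M ≠ 1` of `Y₀` contained in `X` has a proper subgroup `M'`, normal in
`Y₀`, such that `M/M'` is tame in `Y₀/M'` over `k₀`;
(2) for every nonzero `a` in the group ring `k₀[W × H/L]` there is a ring homomorphism `ω` from
`k₀[W × H/L]` to a ring `F` with `ω(a) ≠ 0` such that the group ring over `F` of each power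
`(Y₀/X) ^ j` has no nonzero finitely generated perfect projective module;
(3) there are a normal subgroup `M ≥ L` of `H` and a homomorphism `c : Y₀ → H/M` with kernel
contained in `X` such that `c(y) = h M` whenever the element `y` of `Y₀` is in the support of an
entry of `ρ(h)`, `h ∈ H`. -/
def Admissible (W : Type u) [Group W] {H : Type h} [Group H] (L : Subgroup H) [L.Normal]
    {k : Type v} [CommRing k] {Y : Type v} [Group Y] {d : ℕ}
    (ρ : H →* Matrix (Fin d) (Fin d) (MonoidAlgebra k Y))
    (k₀ : Subalgebra ℤ k) (Y₀ : Subgroup Y) : Prop :=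
  ∃ (X : Subgroup Y₀) (_ : X.Normal), TameSeries k₀ X ∧
    ((∃ (M : Subgroup H) (_ : M.Normal) (c : Y₀ →* H ⧸ M), L ≤ M ∧ c.ker ≤ X ∧
        ∀ h s t, ∀ y : Y₀, (y : Y) ∈ (ρ h s t).coeff.support → c y = QuotientGroup.mk h) ∨
      ResiduallyGood.{v, v', v, max u h} k₀ (W × (H ⧸ L)) (Y₀ ⧸ X))

/-- Let `R` be the group ring `ℤW` of a group `W` (for instance `R = ℤ`, `W = 1`). Let `G` be a
group such that for every finite subset `S` there are a group `H`, a normal subgroup `K` of `H` and
a map `φ : G → H`, injective on `S` and multiplicative on pairs from `S`, such that the group ring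
`R[H/K]` has no nonzero finitely generated perfect projective module and such that for every
normal subgroup `N ≠ 1` of `H` contained in `K` which is the normal closure of the set of the
elements `(φ a)⁻¹ * φ b` of `N` (`a, b ∈ S`) there are a normal subgroup `L ≥ N` of `H`, a
commutative domain `k`, a group `Y` and a homomorphism `ρ` from `H` to the group of invertible
`d × d` matrices over `kY` such that `L ∩ ker ρ` is a proper subgroup of `N` and such that for all
finitely generated subrings `k₀` of `k` and all finitely generated subgroups `Y₀` of `Y` the pair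
`(k₀, Y₀)` is admissible. Then the group ring `RG` has no nonzero finitely generated perfect
projective module. -/
theorem result (W : Type u) [Group W] (R : Type r) [Ring R] (ε : R ≃+* MonoidAlgebra ℤ W)
    (G : Type u) [Group G]
    (hG : ∀ S : Finset G, ∃ (H : Type h) (_ : Group H) (K : Subgroup H) (_ : K.Normal)
      (φ : G → H),
      Set.InjOn φ S ∧ (∀ a ∈ S, ∀ b ∈ S, φ (a * b) = φ a * φ b) ∧
      NoPerfectProjective R (H ⧸ K) ∧
      ∀ N : Subgroup H, N.Normal → N ≤ K → N ≠ ⊥ →
        Subgroup.normalClosure {y | y ∈ N ∧ ∃ a ∈ S, ∃ b ∈ S, y = (φ a)⁻¹ * φ b} = N →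
        ∃ (L : Subgroup H) (_ : L.Normal) (k : Type v) (_ : CommRing k) (_ : IsDomain k)
          (Y : Type v) (_ : Group Y) (d : ℕ)
          (ρ : H →* Matrix (Fin d) (Fin d) (MonoidAlgebra k Y)),
          N ≤ L ∧ L ⊓ ρ.ker < N ∧
          ∀ k₀ : Subalgebra ℤ k, k₀.FG → ∀ Y₀ : Subgroup Y, Y₀.FG →
            Admissible.{u, v, v', h} W L ρ k₀ Y₀) :
    NoPerfectProjective R G := by
  refine Pool.Agent.H677_Perf.Lin.npp_rel7.{u, v, v', v, u, r, h} (G := G) ε ?_
  intro S
  obtain ⟨H, hH, K, hK, φ, h1, h2, h3, h4⟩ := hG S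
  refine ⟨H, hH, K, hK, φ, h1, h2, h3, ?_⟩
  intro N hNn hNK hNb hT
  have hset : {y | y ∈ N ∧ ∃ a ∈ φ '' S, ∃ b ∈ φ '' S, y = a⁻¹ * b} =
      {y | y ∈ N ∧ ∃ a ∈ S, ∃ b ∈ S, y = (φ a)⁻¹ * φ b} := by
    ext y
    constructor
    · rintro ⟨hy, _, ⟨a, ha, rfl⟩, _, ⟨b, hb, rfl⟩, h⟩
      exact ⟨hy, a, ha, b, hb, h⟩
    · rintro ⟨hy, a, ha, b, hb, h⟩
      exact ⟨hy, _, ⟨a, ha, rfl⟩, _, ⟨b, hb, rfl⟩, h⟩
  rw [hset] at hT
  exact h4 N hNn hNK hNb hT

end Pool.Agent.Results.MP_79a731_al.LinearOverGroupRings
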